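import Pool.Agent.Helper79_SCT.Pfa

/-!
# Specialisation of rationality for cubic hypersurfaces with a congruence of secant lines

`f` is a form of degree three in `n + 2` variables, the cubic hypersurface `f = 0` in the projective
space of dimension `n + 1` has dimension `n`.  All smooth Pfaffian cubic fourfolds are in the class.
-/

set_option autoImplicit false
set_option linter.unusedSectionVars false

namespace Pool.Agent.Results.MP_02d4f5_ag.SecantSpecialisation

open MvPolynomial

/-- the field `E(T_0, ..., T_{n+1})` of the rational functions of a point `T` of the affine space of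
dimension `n + 2` over `E` -/
abbrev FT (E : Type) [Field E] (n : ℕ) : Type := FractionRing (MvPolynomial (Fin (n + 2)) E)

/-- the hypersurface `f = 0` is nonsingular: at every point with coordinates in `E` a partial
derivative of `f` does not vanish (`E` will be algebraically closed) -/
def Nonsingular (E : Type) [Field E] (n : ℕ) (f : MvPolynomial (Fin (n + 2)) E) : Prop :=
  ∀ x : Fin (n + 2) → E, x ≠ 0 → eval x f = 0 → ∃ i, eval x (pderiv i f) ≠ 0

/-- the hypersurface `f = 0` of dimension `n` is rational: there is a point `x` of it with
coordinates in `E(y_1, ..., y_n)` whose ratios of coordinates generate `E(y_1, ..., y_n)` over `E`,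
that is a birational map from the projective space of dimension `n` -/
def IsRational (E : Type) [Field E] (n : ℕ) (f : MvPolynomial (Fin (n + 2)) E) : Prop :=
  ∃ x : Fin (n + 2) → FractionRing (MvPolynomial (Fin n) E),
    x ≠ 0 ∧ aeval x f = 0 ∧ IntermediateField.adjoin E {z | ∃ i j, z = x i / x j} = ⊤

/-- the point `T + u x` of the line through the generic point `T` and the point `x`; `u` is in the
algebraic closure of `E(T)` -/
noncomputable def linePoint (E : Type) [Field E] (n : ℕ) (x : Fin (n + 2) → FT E n)
    (u : AlgebraicClosure (FT E n)) : Fin (n + 2) → AlgebraicClosure (FT E n) :=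
  fun i => algebraMap (FT E n) (AlgebraicClosure (FT E n))
      (algebraMap (MvPolynomial (Fin (n + 2)) E) (FT E n) (X i)) +
    u * algebraMap (FT E n) (AlgebraicClosure (FT E n)) (x i)

/-- the point of the line through the generic point `T` and the point `x` in the hyperplane whose
equation has the coefficients `c` in `E` -/
noncomputable def hyperplanePoint (E : Type) [Field E] (n : ℕ) (c : Fin (n + 2) → E)
    (x : Fin (n + 2) → FT E n) : Fin (n + 2) → FT E n :=
  fun i => (∑ j, algebraMap E (FT E n) (c j) *
      algebraMap (MvPolynomial (Fin (n + 2)) E) (FT E n) (X j)) * x i -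
    (∑ j, algebraMap E (FT E n) (c j) * x j) *
      algebraMap (MvPolynomial (Fin (n + 2)) E) (FT E n) (X i)

/-- the closure over `E` of the point `p` of the projective space has dimension at most `d`: the
field generated by the ratios of its coordinates has transcendence degree at most `d` -/
def DimAtMost (E : Type) [Field E] {Ω ι : Type} [Field Ω] [Algebra E Ω] (p : ι → Ω) (d : ℕ) : Prop :=
  Algebra.trdeg E (IntermediateField.adjoin E {z | ∃ i j, z = p i / p j}) ≤ d

/-- the closure over `E` of the pair `(p, q)` of points of the projective space has dimension at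
most `d`: the field generated by the ratios of the coordinates of `p` and of those of `q` has
transcendence degree at most `d` -/
def PairDimAtMost (E : Type) [Field E] {Ω ι : Type} [Field Ω] [Algebra E Ω] (p q : ι → Ω) (d : ℕ) :
    Prop :=
  Algebra.trdeg E (IntermediateField.adjoin E {z | ∃ i j, z = p i / p j} ⊔
    IntermediateField.adjoin E {z | ∃ i j, z = q i / q j} : IntermediateField E Ω) ≤ d

/-- through the generic point `T` passes a line, defined over `E(T)`, that meets the hypersurface
`f = 0` in a point `x` with coordinates in `E(T)` and in two further points `T + u x`, `T + v x` over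
the algebraic closure of `E(T)` (`f(T + s x) = A (s - u) (s - v)`), whose closures over `E` have
dimensions at most `a` and `b`, where `a + b = n`.  The two further points are different, or at
least the pairs (point `x`, line) vary in a family of dimension at most `n` when `T` varies (`x` and
the point of the line in any constant hyperplane form a pair of dimension at most `n`). -/
def HasSecantLine (E : Type) [Field E] (n : ℕ) (f : MvPolynomial (Fin (n + 2)) E) : Prop :=
  ∃ (x : Fin (n + 2) → FT E n) (u v A : AlgebraicClosure (FT E n)) (a b : ℕ),
    x ≠ 0 ∧ aeval x f = 0 ∧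
      (∀ s : AlgebraicClosure (FT E n), aeval (linePoint E n x s) f = A * (s - u) * (s - v)) ∧
      a + b = n ∧ DimAtMost E (linePoint E n x u) a ∧ DimAtMost E (linePoint E n x v) b ∧
      (u ≠ v ∨ ∀ c : Fin (n + 2) → E, PairDimAtMost E x (hyperplanePoint E n c x) n)

/-- the hypersurface `f = 0` contains a linear subspace `P(L)` such that, over an extension `F` of
odd degree of the field `E(T)`, the linear span of `P(L)` and of the generic point `T` contains a
point `a + t T`, `a` in `F ⊗ L`, `t ≠ 0`, of the hypersurface outside of `P(L)`: the bundle of the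
residual quadrics in the linear spaces which contain `P(L)` as a hyperplane has a multisection of
odd degree -/
def HasOddSection (E : Type) [Field E] (n : ℕ) (f : MvPolynomial (Fin (n + 2)) E) : Prop :=
  ∃ L : Submodule E (Fin (n + 2) → E), L ≠ ⊥ ∧ (∀ x ∈ L, eval x f = 0) ∧
    ∃ (F : Type) (_ : Field F) (_ : Algebra (FT E n) F), Odd (Module.finrank (FT E n) F) ∧
      ∃ (a : Fin (n + 2) → F) (t : F), t ≠ 0 ∧
        a ∈ Submodule.span F
          {z | ∃ x ∈ L, z = fun i => algebraMap (FT E n) F (algebraMap E (FT E n) (x i))} ∧
        eval₂ ((algebraMap (FT E n) F).comp (algebraMap E (FT E n)))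
          (fun i => a i + t * algebraMap (FT E n) F
            (algebraMap (MvPolynomial (Fin (n + 2)) E) (FT E n) (X i))) f = 0

/-- `f = 0` is a Pfaffian cubic fourfold: `n = 4` and the determinant of the alternating matrix
`z_0 m_0 + ... + z_5 m_5` is `c f(z) ^ 2`, where `m_0, ..., m_5` are alternating `6 x 6` matrices with
entries in `E` and `c ≠ 0` (`E` will be algebraically closed, so `f` is proportional to the
Pfaffian) -/
def IsPfaffian (E : Type) [Field E] (n : ℕ) (f : MvPolynomial (Fin (n + 2)) E) : Prop :=
  n = 4 ∧ ∃ (m : Fin (n + 2) → Matrix (Fin 6) (Fin 6) E) (c : E),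
    (∀ k i, m k i i = 0) ∧ (∀ k i j, m k i j = -m k j i) ∧ c ≠ 0 ∧
      ∀ z : Fin (n + 2) → E,
        (Matrix.of fun i j => ∑ k, z k * m k i j).det = c * (eval z f) ^ 2

variable {E : Type} [Field E] {n : ℕ}

/-- the class of the squad and the class above are the same -/
theorem secant_iff {f : MvPolynomial (Fin (n + 2)) E} (h3 : f.IsHomogeneous 3) (hf : f ≠ 0) :
    HasSecantLine E n f ↔ Pool.Agent.SCT.H79.HasSec E n f :=
  Pool.Agent.SCT.H79.cls_iff Pool.Agent.SCT.H79.exp h3 hf

theorem of_pfaffian [IsAlgClosed E] {f : MvPolynomial (Fin (n + 2)) E} (h3 : f.IsHomogeneous 3)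
    (hf : Pool.Agent.SCT.Nonsing E n f) (h : IsPfaffian E n f) :
    Pool.Agent.SCT.H79.HasSec E n f := by
  obtain ⟨hn, m, c, h1, h2, h4, h5⟩ := h
  subst hn
  exact Pool.Agent.SCT.H79.of_pf h3 hf (m := m) (c := c) ⟨h1, h2, h4, fun z => h5 z⟩

theorem of_sectW [Infinite E] {f : MvPolynomial (Fin (n + 2)) E} (h3 : f.IsHomogeneous 3)
    (hf : Pool.Agent.CUB.H64.Smooth f) (h : Pool.Agent.CUB.H64.SectW n f) : HasOddSection E n f := by
  obtain ⟨L, hL0, hL, a, t, ht, ha, h⟩ := Pool.Agent.CUB.H64.strong h3 hf h
  refine ⟨L, hL0, hL, FT E n, inferInstance, Algebra.id _, ?_, a, t, ht, ha, h⟩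
  rw [Module.finrank_self]
  exact odd_one

/-- **Theorem.** Let `R` be a valuation ring (for example a discrete valuation ring) with fraction
field `K` and residue field `k`, of any characteristics, and `f` a form of degree three over `R`
whose special fibre is nonsingular over the algebraic closure of `k`.  If, over the algebraic
closure of `K`, the generic fibre has a secant line as above through the generic point of the
space, or contains a linear subspace with an odd degree multisection of the bundle of the residual
quadrics, or is a Pfaffian cubic fourfold, then it is nonsingular, the special fibre has a secant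
line as above (and a linear subspace with a multisection of odd degree if the generic fibre has
one), and both geometric fibres are rational. -/
theorem result (R : Type) [CommRing R] [IsDomain R] [ValuationRing R] (K : Type) [Field K]
    [Algebra R K] [IsFractionRing R K] (n : ℕ) (f : MvPolynomial (Fin (n + 2)) R)
    (h3 : f.IsHomogeneous 3)
    (hs : Nonsingular (AlgebraicClosure (IsLocalRing.ResidueField R)) n
      (map ((algebraMap (IsLocalRing.ResidueField R)
        (AlgebraicClosure (IsLocalRing.ResidueField R))).comp (IsLocalRing.residue R)) f))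
    (hK : HasSecantLine (AlgebraicClosure K) n
        (map ((algebraMap K (AlgebraicClosure K)).comp (algebraMap R K)) f) ∨
      HasOddSection (AlgebraicClosure K) n
        (map ((algebraMap K (AlgebraicClosure K)).comp (algebraMap R K)) f) ∨
      IsPfaffian (AlgebraicClosure K) n
        (map ((algebraMap K (AlgebraicClosure K)).comp (algebraMap R K)) f)) :
    Nonsingular (AlgebraicClosure K) n
        (map ((algebraMap K (AlgebraicClosure K)).comp (algebraMap R K)) f) ∧
      HasSecantLine (AlgebraicClosure (IsLocalRing.ResidueField R)) n
        (map ((algebraMap (IsLocalRing.ResidueField R)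
          (AlgebraicClosure (IsLocalRing.ResidueField R))).comp (IsLocalRing.residue R)) f) ∧
      (HasOddSection (AlgebraicClosure K) n
          (map ((algebraMap K (AlgebraicClosure K)).comp (algebraMap R K)) f) →
        HasOddSection (AlgebraicClosure (IsLocalRing.ResidueField R)) n
          (map ((algebraMap (IsLocalRing.ResidueField R)
            (AlgebraicClosure (IsLocalRing.ResidueField R))).comp (IsLocalRing.residue R)) f)) ∧
      IsRational (AlgebraicClosure K) n
        (map ((algebraMap K (AlgebraicClosure K)).comp (algebraMap R K)) f) ∧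
      IsRational (AlgebraicClosure (IsLocalRing.ResidueField R)) n
        (map ((algebraMap (IsLocalRing.ResidueField R)
          (AlgebraicClosure (IsLocalRing.ResidueField R))).comp (IsLocalRing.residue R)) f) := by
  have hRE : (algebraMap K (AlgebraicClosure K)).comp (algebraMap R K) =
      algebraMap R (AlgebraicClosure K) :=
    (IsScalarTower.algebraMap_eq R K (AlgebraicClosure K)).symm
  have hinj : Function.Injective (algebraMap R (AlgebraicClosure K)) := by
    rw [← hRE]
    exact (algebraMap K (AlgebraicClosure K)).injective.comp (IsFractionRing.injective R K)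
  have halg : ∀ x : AlgebraicClosure K, IsAlgebraic R x := fun x =>
    (IsFractionRing.isAlgebraic_iff R K (AlgebraicClosure K)).2
      (Algebra.IsAlgebraic.isAlgebraic x)
  obtain ⟨V, φ, π, hφ, hπ, hu, hπφ⟩ :=
    Pool.Agent.CUB.H64.val_thm R (AlgebraicClosure K) hinj halg
  have hgen : map ((algebraMap K (AlgebraicClosure K)).comp (algebraMap R K)) f =
      map V.subtype (map φ f) := by
    rw [map_map, hRE]
    congr 1
    congr 1
    ext r
    exact (hφ r).symm
  have hsp : map ((algebraMap (IsLocalRing.ResidueField R)
      (AlgebraicClosure (IsLocalRing.ResidueField R))).comp (IsLocalRing.residue R)) f =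
      map π (map φ f) := by
    rw [map_map, hπφ]
  rw [hgen] at hK ⊢
  rw [hsp] at hs ⊢
  have h3V : (map φ f).IsHomogeneous 3 := h3.map φ
  have hsm : Pool.Agent.CUB.H64.Smooth (map V.subtype (map φ f)) :=
    Pool.Agent.CUB.H64.smooth_gen h3V π hs
  have hgN : Pool.Agent.SCT.Nonsing (AlgebraicClosure K) n (map V.subtype (map φ f)) := hsm
  have hsN : Pool.Agent.SCT.Nonsing (AlgebraicClosure (IsLocalRing.ResidueField R)) n
    (map π (map φ f)) := hs
  have hsec : Pool.Agent.SCT.H79.HasSec (AlgebraicClosure K) n (map V.subtype (map φ f)) := by
    rcases hK with h | h | h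
    · exact (secant_iff (h3V.map V.subtype) hgN.ne_zero).1 h
    · exact Pool.Agent.SCT.H79.of_odd Pool.Agent.SCT.H79.exp (h3V.map V.subtype) hgN h
    · exact of_pfaffian (h3V.map V.subtype) hgN h
  obtain ⟨r1, r2, r3⟩ := Pool.Agent.SCT.H79.core Pool.Agent.SCT.H79.exp Pool.Agent.SCT.H19.der
    (Pool.Agent.SCT.H79.rn1 Pool.Agent.SCT.H22.tay) Pool.Agent.SCT.H64.val V π n (map φ f) hπ hu
    h3V hsN hgN hsec
  refine ⟨hsm, (secant_iff (h3V.map π) hsN.ne_zero).2 r1, ?_, r2, r3⟩
  intro h
  have hW : Pool.Agent.CUB.H64.SectW n (map V.subtype (map φ f)) :=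
    Pool.Agent.CUB.H64.class_sectW (h3V.map V.subtype) (Pool.Agent.SCT.H57.class_of h)
  exact of_sectW (h3V.map π) hs (Pool.Agent.CUB.H64.red_sect h3V π hπ hW)

end Pool.Agent.Results.MP_02d4f5_ag.SecantSpecialisation
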